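import Mathlib
import Pool.Agent.Y303.SK.Stm

/-! Calculus of the series. -/

open Set Filter Topology MeasureTheory Metric

set_option autoImplicit false

namespace Pool.Agent.Y427.SK

open Pool.Agent.Y5 (E3)
open Pool.Agent.Y303.SK

/-! ### Smooth fields with compact support -/

lemma cs_zero {Ω : Set E3} {f : E3 → E3} (h : CS Ω f) {x : E3} (hx : x ∉ Ω) : f x = 0 :=
  image_eq_zero_of_notMem_tsupport fun h' => hx (h.supp h')

lemma cs_bdd {Ω : Set E3} {f : E3 → E3} (h : CS Ω f) (k : ℕ) :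
    BddAbove (range fun x => ‖iteratedFDeriv ℝ k f x‖) := by
  have hc : Continuous fun x => ‖iteratedFDeriv ℝ k f x‖ :=
    (h.smooth.continuous_iteratedFDeriv (by exact_mod_cast le_top)).norm
  exact hc.bddAbove_range_of_hasCompactSupport (h.cpt.iteratedFDeriv k).norm

lemma le_nk {Ω : Set E3} {f : E3 → E3} (h : CS Ω f) (k : ℕ) (x : E3) :
    ‖iteratedFDeriv ℝ k f x‖ ≤ nk k f := le_ciSup (cs_bdd h k) x

lemma nk_nonneg (k : ℕ) (f : E3 → E3) : 0 ≤ nk k f := Real.iSup_nonneg fun _ => norm_nonneg _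

lemma le_nk0 {Ω : Set E3} {f : E3 → E3} (h : CS Ω f) (x : E3) : ‖f x‖ ≤ nk 0 f := by
  have := le_nk h 0 x
  rwa [norm_iteratedFDeriv_zero] at this

lemma le_nk1 {Ω : Set E3} {f : E3 → E3} (h : CS Ω f) (x : E3) : ‖fderiv ℝ f x‖ ≤ nk 1 f := by
  have := le_nk h 1 x
  rwa [norm_iteratedFDeriv_one] at this

lemma cs_cont {Ω : Set E3} {f : E3 → E3} (h : CS Ω f) : Continuous f := h.smooth.continuous

lemma cs_diff {Ω : Set E3} {f : E3 → E3} (h : CS Ω f) : Differentiable ℝ f :=
  h.smooth.differentiable (by simp)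

lemma cs_fcont {Ω : Set E3} {f : E3 → E3} (h : CS Ω f) : Continuous (fderiv ℝ f) :=
  h.smooth.continuous_fderiv (by simp)

lemma cs_smul {Ω : Set E3} {f : E3 → E3} (h : CS Ω f) (c : ℝ) : CS Ω (fun x => c • f x) := by
  refine ⟨h.smooth.const_smul c, ?_, ?_, ?_⟩
  · exact HasCompactSupport.smul_left (f := fun _ => c) h.cpt
  · exact (closure_mono (Function.support_smul_subset_right (fun _ => c) f)).trans h.supp
  · intro x
    unfold dvg
    have : fderiv ℝ (fun x => c • f x) x = c • fderiv ℝ f x :=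
      fderiv_const_smul (cs_diff h x) c
    rw [this]
    have h0 := h.dv x
    unfold dvg at h0
    simp only [_root_.smul_apply, PiLp.smul_apply, smul_eq_mul]
    rw [← Finset.mul_sum, h0, mul_zero]

lemma cs_zero_fun (Ω : Set E3) : CS Ω (fun _ => 0) := by
  refine ⟨contDiff_const, ?_, ?_, ?_⟩
  · exact HasCompactSupport.zero
  · have : tsupport (fun _ : E3 => (0 : E3)) = ∅ := by
      rw [tsupport_eq_empty_iff]; rfl
    rw [this]; exact empty_subset _
  · intro x
    unfold dvg
    simp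

lemma cs_add {Ω : Set E3} {f g : E3 → E3} (hf : CS Ω f) (hg : CS Ω g) :
    CS Ω (fun x => f x + g x) := by
  refine ⟨hf.smooth.add hg.smooth, hf.cpt.add hg.cpt, ?_, ?_⟩
  · exact (tsupport_add f g).trans (union_subset hf.supp hg.supp)
  · intro x
    unfold dvg
    have : fderiv ℝ (fun x => f x + g x) x = fderiv ℝ f x + fderiv ℝ g x :=
      fderiv_add (cs_diff hf x) (cs_diff hg x)
    rw [this]
    have h0 := hf.dv x
    have h1 := hg.dv x
    unfold dvg at h0 h1
    simp only [_root_.add_apply, PiLp.add_apply]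
    rw [Finset.sum_add_distrib, h0, h1, add_zero]

lemma cs_sum {Ω : Set E3} {I : Type} {e : I → E3 → E3} (h : ∀ a, CS Ω (e a)) (z : I → ℝ)
    (F : Finset I) : CS Ω (fun x => ∑ a ∈ F, z a • e a x) := by
  classical
  induction F using Finset.induction_on with
  | empty => simpa using cs_zero_fun Ω
  | insert a F ha ih =>
    simp_rw [Finset.sum_insert ha]
    exact cs_add (cs_smul (h a) (z a)) ih

/-! ### The series -/

section series

variable {Ω : Set E3} {I : Type} {e : I → E3 → E3} {z : I → ℝ}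

lemma term_bd (h : ∀ a, CS Ω (e a)) (k : ℕ) (a : I) (x : E3) :
    ‖iteratedFDeriv ℝ k (fun y => z a • e a y) x‖ ≤ |z a| * nk k (e a) := by
  have h1 : iteratedFDeriv ℝ k (fun y => z a • e a y) x = z a • iteratedFDeriv ℝ k (e a) x := by
    have := iteratedFDeriv_const_smul_apply (a := z a) (i := k) (x := x) (f := e a) (𝕜 := ℝ)
      (((h a).smooth.of_le (by exact_mod_cast le_top)).contDiffAt)
    exact this
  rw [h1, norm_smul, Real.norm_eq_abs]
  exact mul_le_mul_of_nonneg_left (le_nk (h a) k x) (abs_nonneg _)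

lemma sum0 (h : ∀ a, CS Ω (e a)) (hs : ∀ k : ℕ, Summable (fun a => |z a| * nk k (e a))) (x : E3) :
    Summable fun a => z a • e a x := by
  refine Summable.of_norm_bounded (hs 0) fun a => ?_
  rw [norm_smul, Real.norm_eq_abs]
  exact mul_le_mul_of_nonneg_left (le_nk0 (h a) x) (abs_nonneg _)

lemma sum1 (h : ∀ a, CS Ω (e a)) (hs : ∀ k : ℕ, Summable (fun a => |z a| * nk k (e a))) (x : E3) :
    Summable fun a => z a • fderiv ℝ (e a) x := by
  refine Summable.of_norm_bounded (hs 1) fun a => ?_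
  rw [norm_smul, Real.norm_eq_abs]
  exact mul_le_mul_of_nonneg_left (le_nk1 (h a) x) (abs_nonneg _)

lemma ser_smooth (h : ∀ a, CS Ω (e a)) (hs : ∀ k : ℕ, Summable (fun a => |z a| * nk k (e a))) :
    ContDiff ℝ (⊤ : ℕ∞) (ser e z) := by
  refine contDiff_tsum (v := fun k a => |z a| * nk k (e a)) (fun a => (cs_smul (h a) (z a)).smooth)
    (fun k _ => hs k) fun k a x _ => term_bd h k a x

lemma ser_iter (h : ∀ a, CS Ω (e a)) (hs : ∀ k : ℕ, Summable (fun a => |z a| * nk k (e a)))
    (k : ℕ) (x : E3) :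
    ‖iteratedFDeriv ℝ k (ser e z) x‖ ≤ ∑' a, |z a| * nk k (e a) := by
  have h1 : iteratedFDeriv ℝ k (ser e z) = fun x => ∑' a, iteratedFDeriv ℝ k
      (fun y => z a • e a y) x :=
    iteratedFDeriv_tsum (N := (⊤ : ℕ∞)) (v := fun k a => |z a| * nk k (e a))
      (fun a => (cs_smul (h a) (z a)).smooth)
      (fun k _ => hs k) (fun k a x _ => term_bd h k a x) le_top
  rw [h1]
  exact tsum_of_norm_bounded (hs k).hasSum fun a => term_bd h k a x

lemma ser_fderiv (h : ∀ a, CS Ω (e a)) (hs : ∀ k : ℕ, Summable (fun a => |z a| * nk k (e a)))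
    (x : E3) : fderiv ℝ (ser e z) x = ∑' a, z a • fderiv ℝ (e a) x := by
  have h1 : fderiv ℝ (fun x => ∑' a, (fun y => z a • e a y) x) =
      fun x => ∑' a, fderiv ℝ (fun y => z a • e a y) x := by
    refine fderiv_tsum (u := fun a => |z a| * nk 1 (e a)) (hs 1)
      (fun a => cs_diff (cs_smul (h a) (z a))) (fun a x => ?_) (x₀ := 0) (sum0 h hs 0)
    have := term_bd (z := z) h 1 a x
    rwa [norm_iteratedFDeriv_one] at this
  have h2 : fderiv ℝ (ser e z) = fun x => ∑' a, fderiv ℝ (fun y => z a • e a y) x := h1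
  rw [h2]
  refine tsum_congr fun a => ?_
  exact fderiv_const_smul (cs_diff (h a) x) (z a)

/-- The divergence as a functional of the derivative. -/
noncomputable def dvL : (E3 →L[ℝ] E3) →L[ℝ] ℝ :=
  ∑ i : Fin 3, (EuclideanSpace.proj i).comp (ContinuousLinearMap.apply ℝ E3 (cv i))

lemma dvL_apply (A : E3 →L[ℝ] E3) : dvL A = ∑ i : Fin 3, (A (cv i)) i := by
  unfold dvL
  rw [_root_.sum_apply]
  rfl

lemma ser_dv (h : ∀ a, CS Ω (e a)) (hs : ∀ k : ℕ, Summable (fun a => |z a| * nk k (e a)))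
    (x : E3) : dvg (ser e z) x = 0 := by
  have h1 : dvg (ser e z) x = dvL (fderiv ℝ (ser e z) x) := (dvL_apply _).symm
  rw [h1, ser_fderiv h hs, dvL.map_tsum (sum1 h hs x)]
  have : ∀ a, dvL (z a • fderiv ℝ (e a) x) = 0 := by
    intro a
    rw [map_smul, dvL_apply]
    have := (h a).dv x
    unfold dvg at this
    rw [this, smul_zero]
  simp [this]

lemma ser_zero (h : ∀ a, CS Ω (e a)) {x : E3} (hx : x ∉ Ω) : ser e z x = 0 := by
  unfold ser
  have : ∀ a, z a • e a x = 0 := fun a => by rw [cs_zero (h a) hx, smul_zero]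
  simp [this]

lemma ser_cpt (hb : Bornology.IsBounded Ω) (h : ∀ a, CS Ω (e a)) :
    HasCompactSupport (ser e z) := by
  refine HasCompactSupport.of_support_subset_isCompact (K := closure Ω) hb.isCompact_closure ?_
  intro x hx
  by_contra hx'
  exact hx (ser_zero h fun h' => hx' (subset_closure h'))

lemma ser_inH (hb : Bornology.IsBounded Ω) (h : ∀ a, CS Ω (e a))
    (hs : ∀ k : ℕ, Summable (fun a => |z a| * nk k (e a))) : InH Ω (ser e z) := by
  refine ⟨(ser_smooth h hs).continuous.memLp_of_hasCompactSupport (ser_cpt hb h), ?_⟩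
  intro ε hε
  have hvol : volume Ω < ⊤ := hb.measure_lt_top
  -- choice of the finite sum
  set V : ℝ := (volume Ω).toReal with hV
  have hV0 : 0 ≤ V := ENNReal.toReal_nonneg
  obtain ⟨δ, hδ, hδ2⟩ : ∃ δ : ℝ, 0 < δ ∧ δ ^ 2 * V < ε := by
    refine ⟨min 1 (ε / (2 * (V + 1))), by positivity, ?_⟩
    have h1 : min 1 (ε / (2 * (V + 1))) ≤ 1 := min_le_left _ _
    have h2 : min 1 (ε / (2 * (V + 1))) ≤ ε / (2 * (V + 1)) := min_le_right _ _
    have h3 : 0 < min 1 (ε / (2 * (V + 1))) := by positivity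
    calc min 1 (ε / (2 * (V + 1))) ^ 2 * V ≤ 1 * (ε / (2 * (V + 1))) * V := by
          rw [pow_two]; gcongr
      _ < ε := by
          rw [one_mul, div_mul_eq_mul_div, div_lt_iff₀ (by positivity)]
          nlinarith
  obtain ⟨F, hF⟩ : ∃ F : Finset I, ∑' a : {a // a ∉ F}, |z a| * nk 0 (e a) < δ := by
    have := tendsto_tsum_compl_atTop_zero (fun a => |z a| * nk 0 (e a))
    exact (this.eventually (gt_mem_nhds hδ)).exists
  refine ⟨fun x => ∑ a ∈ F, z a • e a x, cs_sum h z F, ?_⟩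
  have hpt : ∀ x, ‖ser e z x - ∑ a ∈ F, z a • e a x‖ ≤ δ := by
    intro x
    have h1 : ser e z x - ∑ a ∈ F, z a • e a x = ∑' a : {a // a ∉ F}, z a • e a x := by
      rw [sub_eq_iff_eq_add']
      exact ((sum0 h hs x).sum_add_tsum_compl (s := F)).symm
    rw [h1]
    have h2 : Summable fun a : {a // a ∉ F} => |z a| * nk 0 (e a) := (hs 0).subtype _
    refine (tsum_of_norm_bounded h2.hasSum fun a => ?_).trans hF.le
    rw [norm_smul, Real.norm_eq_abs]
    exact mul_le_mul_of_nonneg_left (le_nk0 (h a) x) (abs_nonneg _)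
  have h3 : ∫ x, ‖ser e z x - ∑ a ∈ F, z a • e a x‖ ^ 2 =
      ∫ x in Ω, ‖ser e z x - ∑ a ∈ F, z a • e a x‖ ^ 2 := by
    rw [setIntegral_eq_integral_of_forall_compl_eq_zero]
    intro x hx
    rw [ser_zero h hx, Finset.sum_eq_zero fun a _ => by rw [cs_zero (h a) hx, smul_zero]]
    simp
  rw [h3]
  calc ∫ x in Ω, ‖ser e z x - ∑ a ∈ F, z a • e a x‖ ^ 2 ≤ ∫ _ in Ω, δ ^ 2 := by
        refine integral_mono_of_nonneg (Eventually.of_forall fun x => sq_nonneg _)
          (integrableOn_const (hs := hvol.ne)) (Eventually.of_forall fun x => ?_)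
        exact pow_le_pow_left₀ (norm_nonneg _) (hpt x) 2
    _ = δ ^ 2 * V := by
        rw [setIntegral_const, smul_eq_mul, mul_comm]
        rfl
    _ < ε := hδ2

/-! ### Integrals -/

lemma int_e {f : E3 → E3} (hf : CS Ω f) : Integrable (fun x => ‖f x‖) :=
  (cs_cont hf).norm.integrable_of_hasCompactSupport hf.cpt.norm

lemma int_d {f : E3 → E3} (hf : CS Ω f) : Integrable (fun x => ‖fderiv ℝ f x‖) :=
  (cs_fcont hf).norm.integrable_of_hasCompactSupport (hf.cpt.fderiv (𝕜 := ℝ)).norm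

/-- Termwise integration with a majorant `u a * g x`. -/
lemma termwise {J : Type} [Countable J] {F : J → E3 → ℝ} {u : J → ℝ} {g : E3 → ℝ}
    (hF : ∀ a, Continuous (F a)) (hu : Summable u) (hg : Integrable g)
    (hb : ∀ a x, |F a x| ≤ u a * g x) :
    ∫ x, ∑' a, F a x = ∑' a, ∫ x, F a x := by
  have hi : ∀ a, Integrable (F a) := fun a =>
    (hg.const_mul (u a)).mono' (hF a).aestronglyMeasurable (Eventually.of_forall fun x => hb a x)
  have hsum : Summable fun a => ∫ x, ‖F a x‖ := by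
    refine Summable.of_nonneg_of_le (fun a => integral_nonneg fun x => norm_nonneg _) (fun a => ?_)
      (hu.mul_right (∫ x, g x))
    rw [← integral_const_mul]
    exact integral_mono (hi a).norm (hg.const_mul (u a)) fun x => hb a x
  exact (integral_tsum_of_summable_integral_norm hi hsum).symm

lemma ser_ipr [Countable I] (h : ∀ a, CS Ω (e a))
    (hs : ∀ k : ℕ, Summable (fun a => |z a| * nk k (e a)))
    (ho : ∀ a b, (a = b → ipr (e a) (e b) = 1) ∧ (a ≠ b → ipr (e a) (e b) = 0)) (i : I) :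
    ipr (ser e z) (e i) = z i := by
  classical
  have h1 : ∀ x, inner ℝ (ser e z x) (e i x) = ∑' a, z a * inner ℝ (e a x) (e i x) := by
    intro x
    have h2 := (innerSL ℝ (e i x)).map_tsum (sum0 h hs x)
    simp only [innerSL_apply_apply, inner_smul_right] at h2
    rw [real_inner_comm]
    refine Eq.trans h2 (tsum_congr fun a => ?_)
    rw [real_inner_comm]
  unfold ipr
  simp_rw [h1]
  rw [termwise (F := fun a x => z a * inner ℝ (e a x) (e i x))
    (u := fun a => |z a| * nk 0 (e a)) (g := fun x => ‖e i x‖)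
    (fun a => continuous_const.mul ((cs_cont (h a)).inner (cs_cont (h i)))) (hs 0) (int_e (h i))
    (fun a x => ?_)]
  · have h3 : ∀ a, ∫ x, z a * inner ℝ (e a x) (e i x) = if a = i then z i else 0 := by
      intro a
      rw [integral_const_mul]
      split_ifs with hai
      · have := (ho a i).1 hai
        unfold ipr at this
        rw [this, hai, mul_one]
      · have := (ho a i).2 hai
        unfold ipr at this
        rw [this, mul_zero]
    simp_rw [h3]
    rw [tsum_ite_eq]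
  · rw [abs_mul, mul_assoc]
    refine mul_le_mul_of_nonneg_left ?_ (abs_nonneg _)
    exact (abs_real_inner_le_norm _ _).trans
      (mul_le_mul_of_nonneg_right (le_nk0 (h a) x) (norm_nonneg _))

lemma norm_cv (k : Fin 3) : ‖cv k‖ = 1 := by simp

lemma ser_dirf [Countable I] (h : ∀ a, CS Ω (e a))
    (hs : ∀ k : ℕ, Summable (fun a => |z a| * nk k (e a))) (i : I) :
    dirf (ser e z) (e i) = ∑' b, dirf (e i) (e b) * z b := by
  have h1 : ∀ x, ∑ k : Fin 3, inner ℝ (fderiv ℝ (ser e z) x (cv k)) (fderiv ℝ (e i) x (cv k)) =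
      ∑' b, z b * ∑ k : Fin 3, inner ℝ (fderiv ℝ (e i) x (cv k)) (fderiv ℝ (e b) x (cv k)) := by
    intro x
    have h2 : ∀ k : Fin 3, HasSum (fun b => z b * inner ℝ (fderiv ℝ (e i) x (cv k))
        (fderiv ℝ (e b) x (cv k)))
        (inner ℝ (fderiv ℝ (ser e z) x (cv k)) (fderiv ℝ (e i) x (cv k))) := by
      intro k
      have h3 := ((innerSL ℝ (fderiv ℝ (e i) x (cv k))).comp
        (ContinuousLinearMap.apply ℝ E3 (cv k))).hasSum (sum1 h hs x).hasSum
      rw [← ser_fderiv h hs] at h3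
      simp only [ContinuousLinearMap.comp_apply, ContinuousLinearMap.apply_apply,
        innerSL_apply_apply, _root_.smul_apply, inner_smul_right] at h3
      rw [real_inner_comm]
      exact h3
    have h4 := hasSum_sum (s := Finset.univ) fun (k : Fin 3) _ => h2 k
    rw [← h4.tsum_eq]
    refine tsum_congr fun b => ?_
    rw [Finset.mul_sum]
  unfold dirf
  simp_rw [h1]
  rw [termwise (F := fun b x => z b * ∑ k : Fin 3,
      inner ℝ (fderiv ℝ (e i) x (cv k)) (fderiv ℝ (e b) x (cv k)))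
    (u := fun a => |z a| * nk 1 (e a)) (g := fun x => 3 * ‖fderiv ℝ (e i) x‖)
    (fun a => continuous_const.mul (continuous_finsetSum _ fun k _ =>
      ((cs_fcont (h i)).clm_apply continuous_const).inner
        ((cs_fcont (h a)).clm_apply continuous_const))) (hs 1) ((int_d (h i)).const_mul 3)
    (fun a x => ?_)]
  · refine tsum_congr fun b => ?_
    rw [integral_const_mul, mul_comm]
  · rw [abs_mul, mul_assoc]
    refine mul_le_mul_of_nonneg_left ?_ (abs_nonneg _)
    refine (Finset.abs_sum_le_sum_abs _ _).trans ?_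
    have h5 : ∀ k : Fin 3, |inner ℝ (fderiv ℝ (e i) x (cv k)) (fderiv ℝ (e a) x (cv k))| ≤
        nk 1 (e a) * ‖fderiv ℝ (e i) x‖ := by
      intro k
      refine (abs_real_inner_le_norm _ _).trans ?_
      rw [mul_comm]
      have a1 : ‖fderiv ℝ (e a) x (cv k)‖ ≤ nk 1 (e a) := by
        refine ((fderiv ℝ (e a) x).le_opNorm _).trans ?_
        rw [norm_cv, mul_one]
        exact le_nk1 (h a) x
      have a2 : ‖fderiv ℝ (e i) x (cv k)‖ ≤ ‖fderiv ℝ (e i) x‖ := by
        refine ((fderiv ℝ (e i) x).le_opNorm _).trans ?_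
        rw [norm_cv, mul_one]
      exact mul_le_mul a1 a2 (norm_nonneg _) (nk_nonneg _ _)
    refine (Finset.sum_le_sum fun k _ => h5 k).trans (le_of_eq ?_)
    simp only [Finset.sum_const, Finset.card_univ, Fintype.card_fin, nsmul_eq_mul]
    push_cast
    ring

lemma ser_adv [Countable I] (h : ∀ a, CS Ω (e a))
    (hs : ∀ k : ℕ, Summable (fun a => |z a| * nk k (e a))) (i : I) :
    adv (ser e z) (ser e z) (e i) = ∑' p : I × I, adv (e p.1) (e p.2) (e i) * z p.1 * z p.2 := by
  have hsum : Summable fun p : I × I => (|z p.1| * nk 0 (e p.1)) * (|z p.2| * nk 1 (e p.2)) :=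
    (hs 0).mul_of_nonneg (hs 1) (fun a => mul_nonneg (abs_nonneg _) (nk_nonneg _ _))
      (fun a => mul_nonneg (abs_nonneg _) (nk_nonneg _ _))
  have hb : ∀ (p : I × I) (x : E3),
      |z p.1 * z p.2 * inner ℝ (fderiv ℝ (e p.2) x (e p.1 x)) (e i x)| ≤
      (|z p.1| * nk 0 (e p.1)) * (|z p.2| * nk 1 (e p.2)) * ‖e i x‖ := by
    intro p x
    rw [abs_mul, abs_mul]
    have a1 : |inner ℝ (fderiv ℝ (e p.2) x (e p.1 x)) (e i x)| ≤
        nk 1 (e p.2) * nk 0 (e p.1) * ‖e i x‖ := by
      refine (abs_real_inner_le_norm _ _).trans ?_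
      refine mul_le_mul_of_nonneg_right ?_ (norm_nonneg _)
      refine ((fderiv ℝ (e p.2) x).le_opNorm _).trans ?_
      exact mul_le_mul (le_nk1 (h p.2) x) (le_nk0 (h p.1) x) (norm_nonneg _) (nk_nonneg _ _)
    calc |z p.1| * |z p.2| * |inner ℝ (fderiv ℝ (e p.2) x (e p.1 x)) (e i x)| ≤
        |z p.1| * |z p.2| * (nk 1 (e p.2) * nk 0 (e p.1) * ‖e i x‖) := by gcongr
      _ = _ := by ring
  have h1 : ∀ x, inner ℝ (fderiv ℝ (ser e z) x (ser e z x)) (e i x) =
      ∑' p : I × I, z p.1 * z p.2 * inner ℝ (fderiv ℝ (e p.2) x (e p.1 x)) (e i x) := by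
    intro x
    have s0 : Summable fun p : I × I =>
        z p.1 * z p.2 * inner ℝ (fderiv ℝ (e p.2) x (e p.1 x)) (e i x) :=
      Summable.of_norm_bounded (hsum.mul_right ‖e i x‖) fun p => hb p x
    rw [s0.tsum_prod]
    have h2 : ∀ a, ∑' b, z a * z b * inner ℝ (fderiv ℝ (e b) x (e a x)) (e i x) =
        z a * inner ℝ (fderiv ℝ (ser e z) x (e a x)) (e i x) := by
      intro a
      have h3 := ((innerSL ℝ (e i x)).comp
        (ContinuousLinearMap.apply ℝ E3 (e a x))).hasSum (sum1 h hs x).hasSum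
      rw [← ser_fderiv h hs] at h3
      simp only [ContinuousLinearMap.comp_apply, ContinuousLinearMap.apply_apply,
        innerSL_apply_apply, _root_.smul_apply, inner_smul_right] at h3
      have h4 := (h3.mul_left (z a)).tsum_eq
      rw [real_inner_comm, ← h4]
      refine tsum_congr fun b => ?_
      rw [real_inner_comm]; ring
    simp_rw [h2]
    have h3 := ((innerSL ℝ (e i x)).comp (fderiv ℝ (ser e z) x)).hasSum (sum0 h hs x).hasSum
    have h5 : (∑' a, z a • e a x) = ser e z x := rfl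
    rw [h5] at h3
    simp only [ContinuousLinearMap.comp_apply, innerSL_apply_apply, map_smul,
      smul_eq_mul] at h3
    rw [real_inner_comm, ← h3.tsum_eq]
    refine tsum_congr fun a => ?_
    rw [real_inner_comm]
  unfold adv
  simp_rw [h1]
  rw [termwise (F := fun (p : I × I) x =>
      z p.1 * z p.2 * inner ℝ (fderiv ℝ (e p.2) x (e p.1 x)) (e i x))
    (u := fun p : I × I => (|z p.1| * nk 0 (e p.1)) * (|z p.2| * nk 1 (e p.2)))
    (g := fun x => ‖e i x‖) (fun p => ?_) hsum (int_e (h i)) hb]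
  · refine tsum_congr fun p => ?_
    rw [integral_const_mul]; ring
  · exact continuous_const.mul
      (((cs_fcont (h p.2)).clm_apply (cs_cont (h p.1))).inner (cs_cont (h i)))

end series

theorem t_SER : S_SER := by
  intro Ω I _ e z _ hb h hor hs
  exact ⟨ser_smooth h hs, fun x hx => ser_zero h hx, ser_iter h hs, ser_dv h hs,
    ser_inH hb h hs, ser_ipr h hs hor, ser_dirf h hs, ser_adv h hs⟩

end Pool.Agent.Y427.SK
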