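import Mathlib
import Pool.Agent.Y427.SK.Ser
import Pool.Agent.W585.Param

/-! Fields which vanish near a point are dense. -/

open Set Filter Topology MeasureTheory Metric

set_option autoImplicit false

namespace Pool.Agent.Y427.SK

open Pool.Agent.Y5 (E3)
open Pool.Agent.Y303.SK

/-! ### The divergence -/

lemma dvg_eq (v : E3 → E3) (x : E3) : dvg v x = dvL (fderiv ℝ v x) := (dvL_apply _).symm

lemma dvL_id : dvL (ContinuousLinearMap.id ℝ E3) = 3 := by
  rw [dvL_apply]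
  simp

lemma dvL_smulRight (l : E3 →L[ℝ] ℝ) (u : E3) : dvL (l.smulRight u) = l u := by
  rw [dvL_apply]
  have h : u = ∑ i : Fin 3, u i • cv i := by
    have := (EuclideanSpace.basisFun (Fin 3) ℝ).sum_repr u
    simpa using this.symm
  conv_rhs => rw [h]
  rw [map_sum]
  refine Finset.sum_congr rfl fun i _ => ?_
  simp [mul_comm]

lemma dvg_smul {f : E3 → ℝ} {u : E3 → E3} {x : E3} (hf : DifferentiableAt ℝ f x)
    (hu : DifferentiableAt ℝ u x) :
    dvg (fun y => f y • u y) x = f x * dvg u x + fderiv ℝ f x (u x) := by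
  rw [dvg_eq, fderiv_fun_smul hf hu, map_add, map_smul, dvL_smulRight, ← dvg_eq]
  rfl

lemma dvg_add {u v : E3 → E3} {x : E3} (hu : DifferentiableAt ℝ u x)
    (hv : DifferentiableAt ℝ v x) : dvg (fun y => u y + v y) x = dvg u x + dvg v x := by
  rw [dvg_eq, fderiv_fun_add hu hv, map_add, ← dvg_eq, ← dvg_eq]

lemma dvg_sub {u v : E3 → E3} {x : E3} (hu : DifferentiableAt ℝ u x)
    (hv : DifferentiableAt ℝ v x) : dvg (fun y => u y - v y) x = dvg u x - dvg v x := by
  rw [dvg_eq, fderiv_fun_sub hu hv, map_sub, ← dvg_eq, ← dvg_eq]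

lemma dvg_pos (p x : E3) : dvg (fun y => y - p) x = 3 := by
  rw [dvg_eq]
  have : fderiv ℝ (fun y : E3 => y - p) x = ContinuousLinearMap.id ℝ E3 := by
    rw [fderiv_sub_const]; exact fderiv_id
  rw [this, dvL_id]

/-! ### The averaged field -/

/-- `∫ t v(p + t (x - p)) dt` -/
noncomputable def VV (p : E3) (v : E3 → E3) (x : E3) : E3 :=
  ∫ t in (0 : ℝ)..1, t • v (p + t • (x - p))

section VV

variable {Ω : Set E3} {v : E3 → E3} (p : E3)

lemma slice_smooth (hv : ContDiff ℝ (⊤ : ℕ∞) v) :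
    ContDiff ℝ (⊤ : ℕ∞) (fun q : E3 × ℝ => q.2 • v (p + q.2 • (q.1 - p))) :=
  contDiff_snd.smul (hv.comp (contDiff_const.add
    (contDiff_snd.smul (contDiff_fst.sub contDiff_const))))

lemma VV_smooth (hv : ContDiff ℝ (⊤ : ℕ∞) v) : ContDiff ℝ (⊤ : ℕ∞) (VV p v) :=
  Pool.Agent.W585.contDiff_param (F := fun x t => t • v (p + t • (x - p))) (slice_smooth p hv) 0 1

lemma slice_fderiv (hv : ContDiff ℝ (⊤ : ℕ∞) v) (t : ℝ) (x : E3) :
    fderiv ℝ (fun y => t • v (p + t • (y - p))) x = t ^ 2 • fderiv ℝ v (p + t • (x - p)) := by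
  have h1 : HasFDerivAt (fun y : E3 => p + t • (y - p)) (t • ContinuousLinearMap.id ℝ E3) x :=
    (((hasFDerivAt_id x).sub_const p).const_smul t).const_add p
  have h2 : HasFDerivAt v (fderiv ℝ v (p + t • (x - p))) (p + t • (x - p)) :=
    (hv.differentiable (by simp) _).hasFDerivAt
  have h3 := (HasFDerivAt.comp (g := v) x h2 h1).const_smul t
  have h4 : (fun y => t • v (p + t • (y - p))) = (t • (v ∘ fun y : E3 => p + t • (y - p))) := rfl
  rw [h4, h3.fderiv]
  ext h i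
  simp
  ring

lemma VV_dvg (hv : ContDiff ℝ (⊤ : ℕ∞) v) (hd : ∀ x, dvg v x = 0) (x : E3) :
    dvg (VV p v) x = 0 := by
  have hF : ContDiff ℝ 1 (fun q : E3 × ℝ => q.2 • v (p + q.2 • (q.1 - p))) :=
    (slice_smooth p hv).of_le (by exact_mod_cast le_top)
  have h1 := (Pool.Agent.W585.hasFDerivAt_param (F := fun x t => t • v (p + t • (x - p)))
    hF 0 1 x).fderiv
  have h2 : fderiv ℝ (VV p v) x =
      ∫ t in (0 : ℝ)..1, fderiv ℝ (fun y => t • v (p + t • (y - p))) x := h1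
  rw [dvg_eq, h2, ← ContinuousLinearMap.intervalIntegral_comp_comm]
  · have h3 : ∀ t : ℝ, dvL (fderiv ℝ (fun y => t • v (p + t • (y - p))) x) = 0 := by
      intro t
      rw [slice_fderiv p hv, map_smul, ← dvg_eq, hd, smul_zero]
    simp [h3]
  · exact (Pool.Agent.W585.continuous_fderiv_param
      (F := fun x t => t • v (p + t • (x - p))) hF x).intervalIntegrable _ _

lemma VV_radial (hv : ContDiff ℝ (⊤ : ℕ∞) v) (x : E3) :
    fderiv ℝ (VV p v) x (x - p) = v x - (2 : ℝ) • VV p v x := by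
  have hF : ContDiff ℝ 1 (fun q : E3 × ℝ => q.2 • v (p + q.2 • (q.1 - p))) :=
    (slice_smooth p hv).of_le (by exact_mod_cast le_top)
  have h1 := Pool.Agent.W585.fderiv_param_apply (F := fun x t => t • v (p + t • (x - p)))
    hF 0 1 x (x - p)
  have h2 : fderiv ℝ (VV p v) x (x - p) =
      ∫ t in (0 : ℝ)..1, fderiv ℝ (fun y => t • v (p + t • (y - p))) x (x - p) := h1
  have hc1 : Continuous fun t : ℝ => t • v (p + t • (x - p)) := by
    have := hv.continuous
    fun_prop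
  have hc2 : Continuous fun t : ℝ => fderiv ℝ (fun y => t • v (p + t • (y - p))) x (x - p) :=
    (Pool.Agent.W585.continuous_fderiv_param (F := fun x t => t • v (p + t • (x - p)))
      hF x).clm_apply continuous_const
  have h3 : ∀ t : ℝ, HasDerivAt (fun t : ℝ => t ^ 2 • v (p + t • (x - p)))
      ((2 : ℝ) • (t • v (p + t • (x - p))) +
        fderiv ℝ (fun y => t • v (p + t • (y - p))) x (x - p)) t := by
    intro t
    have a1 : HasDerivAt (fun t : ℝ => p + t • (x - p)) (x - p) t := by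
      simpa using ((hasDerivAt_id t).smul_const (x - p)).const_add p
    have a2 : HasFDerivAt v (fderiv ℝ v (p + t • (x - p))) (p + t • (x - p)) :=
      (hv.differentiable (by simp) _).hasFDerivAt
    have a3 := a2.comp_hasDerivAt t a1
    have a4 := (hasDerivAt_pow 2 t).smul a3
    have e : (2 : ℝ) • (t • v (p + t • (x - p))) +
        fderiv ℝ (fun y => t • v (p + t • (y - p))) x (x - p) =
        t ^ 2 • (fderiv ℝ v (p + t • (x - p))) (x - p) +
          (((2 : ℕ) : ℝ) * t ^ (2 - 1)) • (v ∘ fun t => p + t • (x - p)) t := by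
      rw [slice_fderiv p hv, _root_.smul_apply, smul_smul, add_comm]
      simp
    rw [e]
    exact a4
  have hc3 : Continuous fun t : ℝ => (2 : ℝ) • (t • v (p + t • (x - p))) := hc1.const_smul (2 : ℝ)
  have h4 := intervalIntegral.integral_eq_sub_of_hasDerivAt (a := 0) (b := 1) (fun t _ => h3 t)
    ((hc3.add hc2).intervalIntegrable _ _)
  rw [intervalIntegral.integral_add (hc3.intervalIntegrable _ _)
    (hc2.intervalIntegrable _ _), intervalIntegral.integral_smul, ← h2] at h4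
  have h5 : (∫ t in (0 : ℝ)..1, t • v (p + t • (x - p))) = VV p v x := rfl
  rw [h5] at h4
  simp only [one_pow, one_smul, add_sub_cancel, ne_eq, OfNat.ofNat_ne_zero, not_false_eq_true,
    zero_pow, zero_smul, add_zero, sub_zero] at h4
  rw [← h4]
  abel

lemma VV_le {N : ℝ} (hN : ∀ x, ‖v x‖ ≤ N) (x : E3) : ‖VV p v x‖ ≤ N := by
  have h := intervalIntegral.norm_integral_le_of_norm_le_const (a := 0) (b := 1) (C := N)
    (f := fun t : ℝ => t • v (p + t • (x - p))) fun t ht => by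
      rw [uIoc_of_le zero_le_one] at ht
      rw [norm_smul, Real.norm_eq_abs, abs_of_pos ht.1]
      calc t * ‖v (p + t • (x - p))‖ ≤ 1 * N :=
            mul_le_mul ht.2 (hN _) (norm_nonneg _) zero_le_one
        _ = N := one_mul N
  simpa [VV] using h

/-- The potential term. -/
noncomputable def bb (p : E3) (v : E3 → E3) (x : E3) : E3 :=
  ‖x - p‖ ^ 2 • VV p v x - inner ℝ (x - p) (VV p v x) • (x - p)

lemma pos_smooth : ContDiff ℝ (⊤ : ℕ∞) (fun y : E3 => y - p) := contDiff_id.sub contDiff_const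

lemma bb_smooth (hv : ContDiff ℝ (⊤ : ℕ∞) v) : ContDiff ℝ (⊤ : ℕ∞) (bb p v) :=
  (((pos_smooth p).norm_sq ℝ).smul (VV_smooth p hv)).sub
    (((pos_smooth p).inner ℝ (VV_smooth p hv)).smul (pos_smooth p))

lemma bb_orth (x : E3) : inner ℝ (x - p) (bb p v x) = 0 := by
  unfold bb
  rw [inner_sub_right, inner_smul_right, inner_smul_right, real_inner_self_eq_norm_sq]
  ring

lemma fderiv_nsq (x h : E3) :
    fderiv ℝ (fun y : E3 => ‖y - p‖ ^ 2) x h = 2 * inner ℝ (x - p) h := by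
  have h1 : HasFDerivAt (fun y : E3 => y - p) (ContinuousLinearMap.id ℝ E3) x :=
    (hasFDerivAt_id x).sub_const p
  have h2 := h1.norm_sq
  rw [h2.fderiv]
  simp [inner_sub_left]

lemma bb_dvg (hv : ContDiff ℝ (⊤ : ℕ∞) v) (hd : ∀ x, dvg v x = 0) (x : E3) :
    dvg (bb p v) x = -inner ℝ (x - p) (v x) := by
  have dV : DifferentiableAt ℝ (VV p v) x := (VV_smooth p hv).differentiable (by simp) x
  have dP : DifferentiableAt ℝ (fun y : E3 => y - p) x := differentiableAt_id.sub_const p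
  have dN : DifferentiableAt ℝ (fun y : E3 => ‖y - p‖ ^ 2) x :=
    ((pos_smooth p).norm_sq ℝ).differentiable (by simp) x
  have dI : DifferentiableAt ℝ (fun y : E3 => (inner ℝ (y - p) (VV p v y) : ℝ)) x :=
    ((pos_smooth p).inner ℝ (VV_smooth p hv)).differentiable (by simp) x
  have h1 : bb p v = fun y => ‖y - p‖ ^ 2 • VV p v y - inner ℝ (y - p) (VV p v y) • (y - p) := rfl
  have dNV : DifferentiableAt ℝ (fun y : E3 => ‖y - p‖ ^ 2 • VV p v y) x := dN.smul dV
  have dIP : DifferentiableAt ℝ (fun y : E3 => (inner ℝ (y - p) (VV p v y) : ℝ) • (y - p)) x :=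
    dI.smul dP
  rw [h1, dvg_sub dNV dIP, dvg_smul dN dV, dvg_smul dI dP, VV_dvg p hv hd,
    dvg_pos, fderiv_nsq]
  have h2 : fderiv ℝ (fun y : E3 => (inner ℝ (y - p) (VV p v y) : ℝ)) x (x - p) =
      inner ℝ (x - p) (fderiv ℝ (VV p v) x (x - p)) + inner ℝ (x - p) (VV p v x) := by
    rw [fderiv_inner_apply ℝ dP dV]
    have : fderiv ℝ (fun y : E3 => y - p) x = ContinuousLinearMap.id ℝ E3 := by
      rw [fderiv_sub_const]; exact fderiv_id
    rw [this]
    rfl
  rw [h2, VV_radial p hv, inner_sub_right, inner_smul_right]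
  ring

end VV

/-! ### Cutoff -/

/-- one for `s ≤ 1 / 2`, zero for `s ≥ 1` -/
noncomputable def ph (s : ℝ) : ℝ := Real.smoothTransition (2 - 2 * s)

lemma ph_smooth : ContDiff ℝ (⊤ : ℕ∞) ph :=
  Real.smoothTransition.contDiff.comp (contDiff_const.sub (contDiff_const.mul contDiff_id))

lemma ph_one {s : ℝ} (h : s ≤ 1 / 2) : ph s = 1 :=
  Real.smoothTransition.one_of_one_le (by linarith)

lemma ph_zero {s : ℝ} (h : 1 ≤ s) : ph s = 0 :=
  Real.smoothTransition.zero_of_nonpos (by linarith)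

lemma dph_smooth : ContDiff ℝ (⊤ : ℕ∞) (deriv ph) := by
  exact (contDiff_infty_iff_deriv.1 ph_smooth).2

lemma dph_zero1 {s : ℝ} (h : s < 1 / 2) : deriv ph s = 0 := by
  have : ph =ᶠ[𝓝 s] fun _ => 1 := by
    filter_upwards [gt_mem_nhds h] with y hy
    exact ph_one hy.le
  rw [this.deriv_eq]; simp

lemma dph_zero2 {s : ℝ} (h : 1 < s) : deriv ph s = 0 := by
  have : ph =ᶠ[𝓝 s] fun _ => 0 := by
    filter_upwards [lt_mem_nhds h] with y hy
    exact ph_zero hy.le
  rw [this.deriv_eq]; simp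

lemma dph_bdd : ∃ C : ℝ, 0 ≤ C ∧ ∀ s, |deriv ph s| ≤ C := by
  have hc : HasCompactSupport (deriv ph) := by
    refine HasCompactSupport.of_support_subset_isCompact (K := Icc (1 / 2) 1) isCompact_Icc ?_
    intro s hs
    by_contra h
    rw [mem_Icc, not_and_or, not_le, not_le] at h
    rcases h with h | h
    · exact hs (dph_zero1 h)
    · exact hs (dph_zero2 h)
  obtain ⟨C, hC⟩ := hc.exists_bound_of_continuous dph_smooth.continuous
  exact ⟨C, (norm_nonneg _).trans (hC 0), fun s => by simpa using hC s⟩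

lemma fderiv_comp_nsq {G : ℝ → ℝ} (hG : Differentiable ℝ G) (p : E3) (d : ℝ) (x h : E3) :
    fderiv ℝ (fun y : E3 => G (‖y - p‖ ^ 2 / d ^ 2)) x h =
      deriv G (‖x - p‖ ^ 2 / d ^ 2) * (2 / d ^ 2 * inner ℝ (x - p) h) := by
  have h0 : DifferentiableAt ℝ (fun y : E3 => ‖y - p‖ ^ 2) x :=
    ((pos_smooth p).norm_sq ℝ).differentiable (by simp) x
  have h1 : HasFDerivAt (fun y : E3 => ‖y - p‖ ^ 2 / d ^ 2)
      ((d ^ 2)⁻¹ • fderiv ℝ (fun y : E3 => ‖y - p‖ ^ 2) x) x := by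
    have := h0.hasFDerivAt.mul_const ((d ^ 2)⁻¹)
    simpa [div_eq_mul_inv] using this
  have h2 := (hG (‖x - p‖ ^ 2 / d ^ 2)).hasDerivAt.comp_hasFDerivAt x h1
  have h3 : (fun y : E3 => G (‖y - p‖ ^ 2 / d ^ 2)) =
      G ∘ fun y : E3 => ‖y - p‖ ^ 2 / d ^ 2 := rfl
  rw [h3, h2.fderiv]
  simp only [_root_.smul_apply, smul_eq_mul, fderiv_nsq]
  ring

/-- The part of the field near the point. -/
noncomputable def Bd (p : E3) (d : ℝ) (v : E3 → E3) (x : E3) : E3 :=
  ph (‖x - p‖ ^ 2 / d ^ 2) • v x + (2 / d ^ 2 * deriv ph (‖x - p‖ ^ 2 / d ^ 2)) • bb p v x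

lemma Bd_cs {Ω : Set E3} {v : E3 → E3} {p : E3} {d : ℝ} (hd : 0 < d) (hv : CS Ω v)
    (hΩ : closedBall p d ⊆ Ω) : CS Ω (Bd p d v) := by
  have hN : ContDiff ℝ (⊤ : ℕ∞) (fun y : E3 => ‖y - p‖ ^ 2 / d ^ 2) :=
    ((pos_smooth p).norm_sq ℝ).div_const _
  have sf : ContDiff ℝ (⊤ : ℕ∞) (fun x : E3 => ph (‖x - p‖ ^ 2 / d ^ 2)) := ph_smooth.comp hN
  have sG : ContDiff ℝ (⊤ : ℕ∞) (fun s : ℝ => 2 / d ^ 2 * deriv ph s) :=
    contDiff_const.mul dph_smooth
  have sg : ContDiff ℝ (⊤ : ℕ∞) (fun x : E3 => 2 / d ^ 2 * deriv ph (‖x - p‖ ^ 2 / d ^ 2)) :=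
    sG.comp hN
  have hsupp : Function.support (Bd p d v) ⊆ closedBall p d := by
    intro x hx
    by_contra h
    rw [mem_closedBall, dist_eq_norm, not_le] at h
    refine hx ?_
    have h1 : 1 < ‖x - p‖ ^ 2 / d ^ 2 := by
      rw [one_lt_div (by positivity)]
      gcongr
    unfold Bd
    rw [ph_zero h1.le, dph_zero2 h1]
    simp
  refine ⟨(sf.smul hv.smooth).add (sg.smul (bb_smooth p hv.smooth)), ?_, ?_, ?_⟩
  · exact HasCompactSupport.of_support_subset_isCompact (isCompact_closedBall p d) hsupp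
  · exact (closure_minimal hsupp isClosed_closedBall).trans hΩ
  · intro x
    have d1 : DifferentiableAt ℝ (fun x : E3 => ph (‖x - p‖ ^ 2 / d ^ 2)) x :=
      sf.differentiable (by simp) x
    have d2 : DifferentiableAt ℝ (fun x : E3 => 2 / d ^ 2 * deriv ph (‖x - p‖ ^ 2 / d ^ 2)) x :=
      sg.differentiable (by simp) x
    have d3 := cs_diff hv x
    have d4 : DifferentiableAt ℝ (bb p v) x := (bb_smooth p hv.smooth).differentiable (by simp) x
    have h1 : Bd p d v = fun x => ph (‖x - p‖ ^ 2 / d ^ 2) • v x +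
      (2 / d ^ 2 * deriv ph (‖x - p‖ ^ 2 / d ^ 2)) • bb p v x := rfl
    have d5 : DifferentiableAt ℝ (fun x : E3 => ph (‖x - p‖ ^ 2 / d ^ 2) • v x) x := d1.smul d3
    have d6 : DifferentiableAt ℝ (fun x : E3 =>
      (2 / d ^ 2 * deriv ph (‖x - p‖ ^ 2 / d ^ 2)) • bb p v x) x := d2.smul d4
    rw [h1, dvg_add d5 d6, dvg_smul d1 d3, dvg_smul d2 d4, hv.dv x,
      bb_dvg p hv.smooth hv.dv, fderiv_comp_nsq (ph_smooth.differentiable (by simp)),
      fderiv_comp_nsq (G := fun s => 2 / d ^ 2 * deriv ph s) (sG.differentiable (by simp)),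
      bb_orth]
    ring

lemma Bd_bound {v : E3 → E3} {p : E3} {d : ℝ} (hd : 0 < d) {N C : ℝ} (hN : ∀ x, ‖v x‖ ≤ N)
    (hC : ∀ s, |deriv ph s| ≤ C) {x : E3} (hx : ‖x - p‖ ≤ d) :
    ‖Bd p d v x‖ ≤ N * (1 + 4 * C) := by
  have hN0 : 0 ≤ N := (norm_nonneg _).trans (hN 0)
  have hC0 : 0 ≤ C := (abs_nonneg _).trans (hC 0)
  have h1 : ‖bb p v x‖ ≤ 2 * d ^ 2 * N := by
    unfold bb
    refine (norm_sub_le _ _).trans ?_
    rw [norm_smul, norm_smul]
    have a1 : ‖(‖x - p‖ ^ 2 : ℝ)‖ ≤ d ^ 2 := by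
      rw [Real.norm_eq_abs, abs_of_nonneg (by positivity)]
      gcongr
    have a2 : ‖(inner ℝ (x - p) (VV p v x) : ℝ)‖ ≤ d * N := by
      refine (norm_inner_le_norm _ _).trans ?_
      exact mul_le_mul hx (VV_le p hN x) (norm_nonneg _) hd.le
    calc ‖(‖x - p‖ ^ 2 : ℝ)‖ * ‖VV p v x‖ + ‖(inner ℝ (x - p) (VV p v x) : ℝ)‖ * ‖x - p‖ ≤
        d ^ 2 * N + d * N * d := by
          gcongr
          exact VV_le p hN x
      _ = 2 * d ^ 2 * N := by ring
  unfold Bd
  refine (norm_add_le _ _).trans ?_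
  rw [norm_smul, norm_smul]
  have h2 : ‖ph (‖x - p‖ ^ 2 / d ^ 2)‖ ≤ 1 := by
    unfold ph
    rw [Real.norm_eq_abs, abs_of_nonneg (Real.smoothTransition.nonneg _)]
    exact Real.smoothTransition.le_one _
  have h3 : ‖2 / d ^ 2 * deriv ph (‖x - p‖ ^ 2 / d ^ 2)‖ ≤ 2 / d ^ 2 * C := by
    rw [norm_mul, Real.norm_eq_abs, Real.norm_eq_abs, abs_of_pos (by positivity)]
    gcongr
    exact hC _
  calc ‖ph (‖x - p‖ ^ 2 / d ^ 2)‖ * ‖v x‖ +
        ‖2 / d ^ 2 * deriv ph (‖x - p‖ ^ 2 / d ^ 2)‖ * ‖bb p v x‖ ≤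
      1 * N + 2 / d ^ 2 * C * (2 * d ^ 2 * N) := by
        gcongr
        exact hN x
    _ = N * (1 + 4 * C) := by field_simp; ring

theorem t_DENS : S_DENS := by
  intro Ω p v ho hp hv ε hε
  obtain ⟨C, hC0, hC⟩ := dph_bdd
  have hN := fun x => le_nk0 hv x
  set N := nk 0 v with hNd
  have hN0 : 0 ≤ N := nk_nonneg 0 v
  set c : ℝ := (volume (ball (0 : E3) 1)).toReal with hc
  have hc0 : 0 ≤ c := ENNReal.toReal_nonneg
  set K : ℝ := (N * (1 + 4 * C)) ^ 2 * c with hK
  have hK0 : 0 ≤ K := by positivity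
  obtain ⟨δ, hδ, hδΩ⟩ := Metric.isOpen_iff.1 ho p hp
  obtain ⟨d, hd, hd1, hdδ, hdε⟩ : ∃ d : ℝ, 0 < d ∧ d ≤ 1 ∧ d < δ ∧ K * d < ε := by
    refine ⟨min (min 1 (δ / 2)) (ε / (2 * (K + 1))), by positivity, ?_, ?_, ?_⟩
    · exact (min_le_left _ _).trans (min_le_left _ _)
    · have : min (min 1 (δ / 2)) (ε / (2 * (K + 1))) ≤ δ / 2 :=
        (min_le_left _ _).trans (min_le_right _ _)
      linarith
    · calc K * min (min 1 (δ / 2)) (ε / (2 * (K + 1))) ≤ K * (ε / (2 * (K + 1))) := by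
            gcongr; exact min_le_right _ _
        _ < ε := by
            rw [mul_div_assoc', div_lt_iff₀ (by positivity)]
            nlinarith
  have hcl : closedBall p d ⊆ Ω := (closedBall_subset_ball hdδ).trans hδΩ
  have hB := Bd_cs hd hv hcl
  refine ⟨fun x => v x + (-1 : ℝ) • Bd p d v x, cs_add hv (cs_smul hB (-1)), ?_, ?_⟩
  · refine ⟨d / 2, by positivity, fun x hx => ?_⟩
    rw [mem_ball, dist_eq_norm] at hx
    have h1 : ‖x - p‖ ^ 2 / d ^ 2 < 1 / 2 := by
      rw [div_lt_iff₀ (by positivity)]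
      have : ‖x - p‖ ^ 2 < (d / 2) ^ 2 := by gcongr
      nlinarith [sq_nonneg d]
    have h2 : Bd p d v x = v x := by
      unfold Bd
      rw [ph_one h1.le, dph_zero1 h1]
      simp
    simp [h2]
  · have h1 : ∀ x, v x - (v x + (-1 : ℝ) • Bd p d v x) = Bd p d v x := by
      intro x
      rw [neg_one_smul]; abel
    simp_rw [h1]
    have h2 : ∫ x, ‖Bd p d v x‖ ^ 2 = ∫ x in closedBall p d, ‖Bd p d v x‖ ^ 2 := by
      rw [setIntegral_eq_integral_of_forall_compl_eq_zero]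
      intro x hx
      have h3 : 1 < ‖x - p‖ ^ 2 / d ^ 2 := by
        rw [mem_closedBall, dist_eq_norm, not_le] at hx
        rw [one_lt_div (by positivity)]
        gcongr
      unfold Bd
      rw [ph_zero h3.le, dph_zero2 h3]
      simp
    rw [h2]
    have hvol : (volume (closedBall p d)).toReal = d ^ 3 * c := by
      rw [Measure.addHaar_closedBall volume p hd.le, ENNReal.toReal_mul,
        ENNReal.toReal_ofReal (by positivity)]
      simp [hc]
    have hfin : volume (closedBall p d) < ⊤ := measure_closedBall_lt_top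
    calc ∫ x in closedBall p d, ‖Bd p d v x‖ ^ 2 ≤
        ∫ _ in closedBall p d, (N * (1 + 4 * C)) ^ 2 := by
          refine integral_mono_of_nonneg (Eventually.of_forall fun x => sq_nonneg _)
            (integrableOn_const (hs := hfin.ne)) ?_
          filter_upwards [ae_restrict_mem measurableSet_closedBall] with x hx
          rw [mem_closedBall, dist_eq_norm] at hx
          exact pow_le_pow_left₀ (norm_nonneg _) (Bd_bound hd hN hC hx) 2
      _ = (volume (closedBall p d)).toReal * (N * (1 + 4 * C)) ^ 2 := by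
          rw [setIntegral_const, smul_eq_mul]; rfl
      _ = K * d * d ^ 2 := by rw [hvol, hK]; ring
      _ ≤ K * d * 1 := by
          gcongr
          exact pow_le_one₀ hd.le hd1
      _ < ε := by rw [mul_one]; exact hdε

end Pool.Agent.Y427.SK
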