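import Mathlib
import Pool.Agent.Y303.SK.Stm

/-! The sign of the Laplacian. -/

open Set Filter Topology MeasureTheory Metric

set_option autoImplicit false

namespace Pool.Agent.Y427.SK

open Pool.Agent.Y5 (E3)
open Pool.Agent.Y303.SK

lemma int_fderiv_zero {F : E3 → ℝ} (hF : ContDiff ℝ 1 F) (hc : HasCompactSupport F) (v : E3) :
    Integrable (fun x => fderiv ℝ F x v) ∧ ∫ x, fderiv ℝ F x v = 0 := by
  have i1 : Integrable (fun x => fderiv ℝ F x v) := by
    refine ((hF.continuous_fderiv one_ne_zero).clm_apply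
      continuous_const).integrable_of_hasCompactSupport ?_
    exact hc.fderiv_apply (𝕜 := ℝ) v
  refine ⟨i1, ?_⟩
  have h := integral_mul_fderiv_eq_neg_fderiv_mul_of_integrable (f := F) (g := fun _ => (1 : ℝ))
    (v := v) (μ := (volume : Measure E3)) (by simpa using i1) (by simp) (by
      simpa using hF.continuous.integrable_of_hasCompactSupport hc)
    (fun x _ => hF.differentiable one_ne_zero x) (fun x _ => differentiableAt_const 1)
  simpa using h

section fixed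

variable {Ω : Set E3} {w : E3 → E3}

/-- The cutoff function. -/
noncomputable def ze (d s : ℝ) : ℝ := Real.smoothTransition ((s - d) / d)

lemma ze_smooth (d : ℝ) : ContDiff ℝ (⊤ : ℕ∞) (ze d) :=
  Real.smoothTransition.contDiff.comp ((contDiff_id.sub contDiff_const).div_const d)

lemma ze_mono {d : ℝ} (hd : 0 < d) : Monotone (ze d) := by
  intro a b hab
  apply Real.smoothTransition.monotone
  gcongr

lemma ze_zero {d s : ℝ} (hd : 0 < d) (hs : s ≤ d) : ze d s = 0 := by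
  apply Real.smoothTransition.zero_of_nonpos
  exact div_nonpos_of_nonpos_of_nonneg (by linarith) hd.le

lemma ze_one {d s : ℝ} (hd : 0 < d) (hs : 2 * d ≤ s) : ze d s = 1 := by
  apply Real.smoothTransition.one_of_one_le
  rw [le_div_iff₀ hd]; linarith

lemma ze_nonneg (d s : ℝ) : 0 ≤ ze d s := Real.smoothTransition.nonneg _

lemma ze_le_one (d s : ℝ) : ze d s ≤ 1 := Real.smoothTransition.le_one _

/-- The field. -/
noncomputable def FF (w : E3 → E3) (d : ℝ) (k : Fin 3) (x : E3) : ℝ :=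
  ze d (‖w x‖ ^ 2) * inner ℝ (fderiv ℝ w x (cv k)) (w x)

lemma FF_zero_near (hc : Continuous w) {d : ℝ} (hd : 0 < d) (k : Fin 3) {x : E3}
    (hx : ‖w x‖ ^ 2 < d) : FF w d k =ᶠ[𝓝 x] fun _ => 0 := by
  have : ∀ᶠ y in 𝓝 x, ‖w y‖ ^ 2 < d :=
    ((hc.norm.pow 2).continuousAt).eventually (gt_mem_nhds hx)
  filter_upwards [this] with y hy
  unfold FF
  rw [ze_zero hd hy.le, zero_mul]

lemma FF_smooth (ho : IsOpen Ω) (hc : Continuous w) (h0 : ∀ x ∉ Ω, w x = 0)
    (h2 : ContDiffOn ℝ 2 w Ω) {d : ℝ} (hd : 0 < d) (k : Fin 3) : ContDiff ℝ 1 (FF w d k) := by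
  rw [contDiff_iff_contDiffAt]
  intro x
  by_cases hx : x ∈ Ω
  · have a1 : ContDiffAt ℝ 1 w x := (h2.of_le (by norm_num)).contDiffAt (ho.mem_nhds hx)
    have a2 : ContDiffAt ℝ 1 (fderiv ℝ w) x :=
      (h2.fderiv_of_isOpen ho (m := 1) (by norm_num)).contDiffAt (ho.mem_nhds hx)
    have a3 : ContDiffAt ℝ 1 (fun y => ze d (‖w y‖ ^ 2)) x :=
      ((ze_smooth d).of_le (by exact_mod_cast le_top)).contDiffAt.comp x (a1.norm_sq ℝ)
    exact a3.mul ((a2.clm_apply contDiffAt_const).inner ℝ a1)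
  · have hx0 : ‖w x‖ ^ 2 < d := by rw [h0 x hx]; simpa using hd
    exact contDiffAt_const.congr_of_eventuallyEq (FF_zero_near hc hd k hx0)

lemma FF_cpt (hb : Bornology.IsBounded Ω) (h0 : ∀ x ∉ Ω, w x = 0) (d : ℝ) (k : Fin 3) :
    HasCompactSupport (FF w d k) := by
  refine HasCompactSupport.of_support_subset_isCompact (K := closure Ω) hb.isCompact_closure ?_
  intro x hx
  by_contra hx'
  refine hx ?_
  unfold FF
  rw [h0 x fun h' => hx' (subset_closure h'), inner_zero_right, mul_zero]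

lemma FF_deriv (ho : IsOpen Ω) (hc : Continuous w) (h0 : ∀ x ∉ Ω, w x = 0)
    (h2 : ContDiffOn ℝ 2 w Ω) {d : ℝ} (hd : 0 < d) (k : Fin 3) {x : E3} (hx : x ∈ Ω) :
    ze d (‖w x‖ ^ 2) * inner ℝ (fderiv ℝ (fderiv ℝ w) x (cv k) (cv k)) (w x) ≤
      fderiv ℝ (FF w d k) x (cv k) := by
  have a1 : ContDiffAt ℝ 1 w x := (h2.of_le (by norm_num)).contDiffAt (ho.mem_nhds hx)
  have a2 : ContDiffAt ℝ 1 (fderiv ℝ w) x :=
    (h2.fderiv_of_isOpen ho (m := 1) (by norm_num)).contDiffAt (ho.mem_nhds hx)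
  have hline : HasDerivAt (fun t : ℝ => x + t • cv k) (cv k) 0 := by
    simpa using ((hasDerivAt_id (0 : ℝ)).smul_const (cv k)).const_add x
  have hx0 : x + (0 : ℝ) • cv k = x := by simp
  have b1 : HasDerivAt (fun t : ℝ => w (x + t • cv k)) (fderiv ℝ w x (cv k)) 0 := by
    have : HasFDerivAt w (fderiv ℝ w x) (x + (0 : ℝ) • cv k) := by
      rw [hx0]; exact (a1.differentiableAt one_ne_zero).hasFDerivAt
    exact this.comp_hasDerivAt 0 hline
  have b2 : HasDerivAt (fun t : ℝ => fderiv ℝ w (x + t • cv k) (cv k))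
      (fderiv ℝ (fderiv ℝ w) x (cv k) (cv k)) 0 := by
    have : HasFDerivAt (fderiv ℝ w) (fderiv ℝ (fderiv ℝ w) x) (x + (0 : ℝ) • cv k) := by
      rw [hx0]; exact (a2.differentiableAt one_ne_zero).hasFDerivAt
    have h3 := this.comp_hasDerivAt 0 hline
    have h4 := h3.clm_apply (hasDerivAt_const (0 : ℝ) (cv k))
    simpa using h4
  have b3 : HasDerivAt (fun t : ℝ => FF w d k (x + t • cv k)) (fderiv ℝ (FF w d k) x (cv k)) 0 := by
    have : HasFDerivAt (FF w d k) (fderiv ℝ (FF w d k) x) (x + (0 : ℝ) • cv k) := by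
      rw [hx0]
      exact ((FF_smooth ho hc h0 h2 hd k).differentiable one_ne_zero x).hasFDerivAt
    exact this.comp_hasDerivAt 0 hline
  have b4 := b1.norm_sq
  have b5 : HasDerivAt (ze d) (deriv (ze d) (‖w (x + (0 : ℝ) • cv k)‖ ^ 2))
      (‖w (x + (0 : ℝ) • cv k)‖ ^ 2) :=
    ((ze_smooth d).differentiable (by simp) _).hasDerivAt
  have b6 := b5.comp (0 : ℝ) b4
  have b7 := b6.mul (b2.inner ℝ b1)
  have b8 := b3.unique b7
  rw [b8]
  simp only [hx0, Function.comp]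
  have hze : 0 ≤ deriv (ze d) (‖w x‖ ^ 2) := (ze_mono hd).deriv_nonneg
  have c1 : inner ℝ (w x) (fderiv ℝ w x (cv k)) = inner ℝ (fderiv ℝ w x (cv k)) (w x) :=
    real_inner_comm _ _
  have c2 : 0 ≤ inner ℝ (fderiv ℝ w x (cv k)) (fderiv ℝ w x (cv k)) := real_inner_self_nonneg
  have c3 := ze_nonneg d (‖w x‖ ^ 2)
  rw [c1]
  have c4 : 0 ≤ deriv (ze d) (‖w x‖ ^ 2) * (2 * inner ℝ (fderiv ℝ w x (cv k)) (w x)) *
      inner ℝ (fderiv ℝ w x (cv k)) (w x) := by
    have : deriv (ze d) (‖w x‖ ^ 2) * (2 * inner ℝ (fderiv ℝ w x (cv k)) (w x)) *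
      inner ℝ (fderiv ℝ w x (cv k)) (w x) =
      deriv (ze d) (‖w x‖ ^ 2) * (2 * inner ℝ (fderiv ℝ w x (cv k)) (w x) ^ 2) := by ring
    rw [this]; positivity
  have c5 := mul_nonneg c3 c2
  rw [mul_add]
  linarith

lemma lap_meas (ho : IsOpen Ω) (h2 : ContDiffOn ℝ 2 w Ω) :
    ContinuousOn (fun x => inner ℝ (∑ i : Fin 3, fderiv ℝ (fderiv ℝ w) x (cv i) (cv i)) (w x))
      Ω := by
  have a1 : ContDiffOn ℝ 1 (fderiv ℝ w) Ω := h2.fderiv_of_isOpen ho (by norm_num)
  have a2 : ContinuousOn (fderiv ℝ (fderiv ℝ w)) Ω := a1.continuousOn_fderiv_of_isOpen ho le_rfl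
  exact (continuousOn_finsetSum _ fun i _ =>
    (a2.clm_apply continuousOn_const).clm_apply continuousOn_const).inner h2.continuousOn

lemma lap_bound {M W : ℝ} (hW : ∀ x, ‖w x‖ ≤ W)
    (hM : ∀ x ∈ Ω, ‖fderiv ℝ w x‖ ≤ M ∧ ‖fderiv ℝ (fderiv ℝ w) x‖ ≤ M) {x : E3} (hx : x ∈ Ω) :
    ‖(inner ℝ (∑ i : Fin 3, fderiv ℝ (fderiv ℝ w) x (cv i) (cv i)) (w x) : ℝ)‖ ≤ 3 * M * W := by
  have h1 : ‖∑ i : Fin 3, fderiv ℝ (fderiv ℝ w) x (cv i) (cv i)‖ ≤ 3 * M := by
    refine (norm_sum_le _ _).trans ?_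
    have : ∀ i : Fin 3, ‖fderiv ℝ (fderiv ℝ w) x (cv i) (cv i)‖ ≤ M := by
      intro i
      refine ((fderiv ℝ (fderiv ℝ w) x (cv i)).le_opNorm _).trans ?_
      have h1 : ‖cv i‖ = 1 := by simp
      rw [h1, mul_one]
      refine ((fderiv ℝ (fderiv ℝ w) x).le_opNorm _).trans ?_
      rw [h1, mul_one]
      exact (hM x hx).2
    refine (Finset.sum_le_sum fun i _ => this i).trans (le_of_eq ?_)
    simp
  refine (norm_inner_le_norm _ _).trans ?_
  have h3 : 0 ≤ 3 * M := (norm_nonneg _).trans h1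
  exact mul_le_mul h1 (hW x) (norm_nonneg _) h3

lemma fixed_d (ho : IsOpen Ω) (hb : Bornology.IsBounded Ω) (hc : Continuous w)
    (h0 : ∀ x ∉ Ω, w x = 0) (h2 : ContDiffOn ℝ 2 w Ω) {M W : ℝ} (hW : ∀ x, ‖w x‖ ≤ W)
    (hM : ∀ x ∈ Ω, ‖fderiv ℝ w x‖ ≤ M ∧ ‖fderiv ℝ (fderiv ℝ w) x‖ ≤ M) {d : ℝ} (hd : 0 < d) :
    ∫ x in Ω, ze d (‖w x‖ ^ 2) *
      inner ℝ (∑ i : Fin 3, fderiv ℝ (fderiv ℝ w) x (cv i) (cv i)) (w x) ≤ 0 := by
  have hk := fun k => int_fderiv_zero (FF_smooth ho hc h0 h2 hd k) (FF_cpt hb h0 d k) (cv k)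
  have h3 : ∫ x, ∑ k : Fin 3, fderiv ℝ (FF w d k) x (cv k) = 0 := by
    rw [integral_finsetSum _ fun k _ => (hk k).1]
    exact Finset.sum_eq_zero fun k _ => (hk k).2
  have h4 : ∫ x in Ω, ∑ k : Fin 3, fderiv ℝ (FF w d k) x (cv k) =
      ∫ x, ∑ k : Fin 3, fderiv ℝ (FF w d k) x (cv k) := by
    apply setIntegral_eq_integral_of_forall_compl_eq_zero
    intro x hx
    refine Finset.sum_eq_zero fun k _ => ?_
    have hx0 : ‖w x‖ ^ 2 < d := by rw [h0 x hx]; simpa using hd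
    rw [(FF_zero_near hc hd k hx0).fderiv_eq]
    simp
  rw [← h3, ← h4]
  refine setIntegral_mono_on ?_ ?_ ho.measurableSet ?_
  · have hm : AEStronglyMeasurable (fun x => ze d (‖w x‖ ^ 2) *
        inner ℝ (∑ i : Fin 3, fderiv ℝ (fderiv ℝ w) x (cv i) (cv i)) (w x))
        (volume.restrict Ω) :=
      (((ze_smooth d).continuous.comp (hc.norm.pow 2)).continuousOn.mul
        (lap_meas ho h2)).aestronglyMeasurable ho.measurableSet
    haveI : IsFiniteMeasure (volume.restrict Ω) := ⟨by simpa using hb.measure_lt_top⟩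
    refine Integrable.of_bound hm (3 * M * W) ?_
    filter_upwards [ae_restrict_mem ho.measurableSet] with x hx
    rw [norm_mul]
    have h5 := lap_bound hW hM hx
    have h6 : ‖ze d (‖w x‖ ^ 2)‖ ≤ 1 := by
      rw [Real.norm_eq_abs, abs_of_nonneg (ze_nonneg _ _)]; exact ze_le_one _ _
    calc _ ≤ 1 * (3 * M * W) := mul_le_mul h6 h5 (norm_nonneg _) zero_le_one
      _ = _ := one_mul _
  · exact (integrable_finsetSum _ fun k _ => (hk k).1).integrableOn
  · intro x hx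
    rw [sum_inner, Finset.mul_sum]
    exact Finset.sum_le_sum fun k _ => FF_deriv ho hc h0 h2 hd k hx

end fixed

theorem t_SGN : S_SGN := by
  intro Ω w M ho hb hc h0 h2 hM
  obtain ⟨W, hW⟩ : ∃ W, ∀ x, ‖w x‖ ≤ W := by
    have hcs : HasCompactSupport w := by
      refine HasCompactSupport.of_support_subset_isCompact (K := closure Ω)
        hb.isCompact_closure ?_
      intro x hx
      by_contra hx'
      exact hx (h0 x fun h' => hx' (subset_closure h'))
    exact hcs.exists_bound_of_continuous hc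
  have hlim : Tendsto (fun n : ℕ => ∫ x in Ω, ze (1 / ((n : ℝ) + 1)) (‖w x‖ ^ 2) *
      inner ℝ (∑ i : Fin 3, fderiv ℝ (fderiv ℝ w) x (cv i) (cv i)) (w x)) atTop
      (𝓝 (∫ x in Ω, inner ℝ (∑ i : Fin 3, fderiv ℝ (fderiv ℝ w) x (cv i) (cv i)) (w x))) := by
    refine tendsto_integral_of_dominated_convergence (fun _ => 3 * M * W) ?_ ?_ ?_ ?_
    · intro n
      exact (((ze_smooth _).continuous.comp (hc.norm.pow 2)).continuousOn.mul
        (lap_meas ho h2)).aestronglyMeasurable ho.measurableSet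
    · exact integrableOn_const (hs := hb.measure_lt_top.ne)
    · intro n
      filter_upwards [ae_restrict_mem ho.measurableSet] with x hx
      rw [norm_mul]
      have h5 := lap_bound hW hM hx
      have h6 : ‖ze (1 / ((n : ℝ) + 1)) (‖w x‖ ^ 2)‖ ≤ 1 := by
        rw [Real.norm_eq_abs, abs_of_nonneg (ze_nonneg _ _)]; exact ze_le_one _ _
      calc _ ≤ 1 * (3 * M * W) := mul_le_mul h6 h5 (norm_nonneg _) zero_le_one
        _ = _ := one_mul _
    · refine Eventually.of_forall fun x => ?_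
      by_cases hx : w x = 0
      · simp [hx]
      · have hp : 0 < ‖w x‖ ^ 2 := by positivity
        have h7 : ∀ᶠ n : ℕ in atTop, ze (1 / ((n : ℝ) + 1)) (‖w x‖ ^ 2) = 1 := by
          have h8 : Tendsto (fun n : ℕ => 1 / ((n : ℝ) + 1)) atTop (𝓝 0) :=
            tendsto_one_div_add_atTop_nhds_zero_nat
          filter_upwards [h8.eventually (gt_mem_nhds (half_pos hp))] with n hn
          exact ze_one (by positivity) (by linarith)
        refine tendsto_const_nhds.congr' ?_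
        filter_upwards [h7] with n hn
        rw [hn, one_mul]
  refine le_of_tendsto' hlim fun n => ?_
  exact fixed_d ho hb hc h0 h2 hW hM (by positivity)

end Pool.Agent.Y427.SK
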